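import Pool.Agent.Helper68.SK.Goals

/-!
PROJECT SK (MP_2b0227_gt), packet SK-SUB: elementary facts about `mass` and `push`.
-/

set_option autoImplicit false

namespace Pool.Agent.Helper93.SK

open Finset Pool.Agent.Helper68.SK

section

variable {V E : Type} [Fintype V] [DecidableEq V] [Fintype E] [DecidableEq E] (g : E → V × V)

theorem hit_union (U U' : Finset V) (a : V ⊕ E) : hit g (U ∪ U') a ↔ hit g U a ∨ hit g U' a := by
  cases a with
  | inl v => exact Finset.mem_union
  | inr e =>
    change (g e).1 ∈ U ∪ U' ∨ (g e).2 ∈ U ∪ U' ↔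
      ((g e).1 ∈ U ∨ (g e).2 ∈ U) ∨ ((g e).1 ∈ U' ∨ (g e).2 ∈ U')
    rw [Finset.mem_union, Finset.mem_union]
    tauto

theorem hit_inter (U U' : Finset V) (a : V ⊕ E) (h : hit g (U ∩ U') a) :
    hit g U a ∧ hit g U' a := by
  cases a with
  | inl v => exact Finset.mem_inter.1 h
  | inr e =>
    change (g e).1 ∈ U ∩ U' ∨ (g e).2 ∈ U ∩ U' at h
    change ((g e).1 ∈ U ∨ (g e).2 ∈ U) ∧ ((g e).1 ∈ U' ∨ (g e).2 ∈ U')
    rw [Finset.mem_inter, Finset.mem_inter] at h
    tauto

theorem mass_add (z : V ⊕ E → ℤ) (U U' : Finset V) :
    mass g z U + mass g z U' = mass g z (U ∪ U') + mass g z (U ∩ U') +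
      ∑ a, if hit g U a ∧ hit g U' a ∧ ¬ hit g (U ∩ U') a then z a else 0 := by
  unfold mass
  rw [← Finset.sum_add_distrib, ← Finset.sum_add_distrib, ← Finset.sum_add_distrib]
  refine Finset.sum_congr rfl fun a _ => ?_
  have h1 := hit_union g U U' a
  have h2 := hit_inter g U U' a
  by_cases hU : hit g U a
  · by_cases hU' : hit g U' a
    · by_cases hI : hit g (U ∩ U') a
      · rw [if_pos hU, if_pos hU', if_pos (h1.2 (Or.inl hU)), if_pos hI,
          if_neg (fun h => h.2.2 hI)]
        ring
      · rw [if_pos hU, if_pos hU', if_pos (h1.2 (Or.inl hU)), if_neg hI,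
          if_pos ⟨hU, hU', hI⟩]
        ring
    · rw [if_pos hU, if_neg hU', if_pos (h1.2 (Or.inl hU)), if_neg (fun h => hU' (h2 h).2),
        if_neg (fun h => hU' h.2.1)]
      ring
  · by_cases hU' : hit g U' a
    · rw [if_neg hU, if_pos hU', if_pos (h1.2 (Or.inr hU')), if_neg (fun h => hU (h2 h).1),
        if_neg (fun h => hU h.1)]
      ring
    · rw [if_neg hU, if_neg hU', if_neg (fun h => (h1.1 h).elim hU hU'),
        if_neg (fun h => hU (h2 h).1), if_neg (fun h => hU h.1)]
      ring

theorem term_nonpos (z : V ⊕ E → ℤ) (U U' : Finset V) (hz : ∀ e, z (.inr e) ≤ 0) (a : V ⊕ E) :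
    (if hit g U a ∧ hit g U' a ∧ ¬ hit g (U ∩ U') a then z a else 0) ≤ 0 := by
  split_ifs with h
  · cases a with
    | inl v => exact absurd (Finset.mem_inter.2 ⟨h.1, h.2.1⟩) h.2.2
    | inr e => exact hz e
  · exact le_rfl

end

/-- SUB -/
theorem sub : Pool.Agent.Helper68.SK.GoalSub := by
  refine ⟨?_, ?_⟩
  · intro V E _ _ _ _ g z
    refine ⟨mass_add g z, ?_, ?_, ?_, ?_, ?_, ?_⟩
    · intro U U' hz
      rw [mass_add g z U U']
      have h := Finset.sum_nonpos (s := univ) fun a _ => term_nonpos g z U U' hz a
      linarith
    · intro U U' e hz h1 h2 h3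
      rw [mass_add g z U U']
      have h := Finset.sum_le_sum (s := (univ : Finset (V ⊕ E)))
        (f := fun a => if hit g U a ∧ hit g U' a ∧ ¬ hit g (U ∩ U') a then z a else 0)
        (g := fun a => if a = .inr e then z a else 0) (fun a _ => by
          by_cases ha : a = .inr e
          · rw [if_pos ha]
            subst ha
            rw [if_pos ⟨h1, h2, h3⟩]
          · rw [if_neg ha]
            exact term_nonpos g z U U' hz a)
      rw [Finset.sum_ite_eq' univ (Sum.inr e) z, if_pos (Finset.mem_univ _)] at h
      linarith
    · intro U a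
      unfold mass
      have h : (if hit g U a then (1 : ℤ) else 0) =
          ∑ b, if hit g U b then δ a b else 0 := by
        rw [Finset.sum_eq_single a]
        · simp [δ]
        · intro b _ hb
          simp [δ, hb]
        · intro h
          exact absurd (Finset.mem_univ _) h
      rw [h, ← Finset.sum_add_distrib]
      refine Finset.sum_congr rfl fun b _ => ?_
      split_ifs
      · rfl
      · rfl
    · intro U a
      unfold mass
      have h : (if hit g U a then (1 : ℤ) else 0) =
          ∑ b, if hit g U b then δ a b else 0 := by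
        rw [Finset.sum_eq_single a]
        · simp [δ]
        · intro b _ hb
          simp [δ, hb]
        · intro h
          exact absurd (Finset.mem_univ _) h
      rw [h, ← Finset.sum_sub_distrib]
      refine Finset.sum_congr rfl fun b _ => ?_
      split_ifs
      · rfl
      · rfl
    · unfold mass
      refine Finset.sum_eq_zero fun a _ => if_neg ?_
      cases a with
      | inl v => exact Finset.notMem_empty v
      | inr e =>
        rintro (h | h)
        · exact Finset.notMem_empty _ h
        · exact Finset.notMem_empty _ h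
    · unfold mass
      refine Finset.sum_congr rfl fun a _ => if_pos ?_
      cases a with
      | inl v => exact Finset.mem_univ v
      | inr e => exact Or.inl (Finset.mem_univ _)
  · intro D D' _ _ _ _ f
    refine ⟨?_, ?_, ?_, ?_⟩
    · intro z
      unfold push
      rw [Finset.sum_comm]
      refine Finset.sum_congr rfl fun a _ => ?_
      rw [Finset.sum_ite_eq, if_pos (Finset.mem_univ _)]
    · intro z w
      funext b
      change ∑ a, (if f a = b then z a + w a else 0) =
        (∑ a, if f a = b then z a else 0) + ∑ a, if f a = b then w a else 0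
      rw [← Finset.sum_add_distrib]
      refine Finset.sum_congr rfl fun a _ => ?_
      split_ifs
      · rfl
      · rfl
    · intro z w
      funext b
      change ∑ a, (if f a = b then z a - w a else 0) =
        (∑ a, if f a = b then z a else 0) - ∑ a, if f a = b then w a else 0
      rw [← Finset.sum_sub_distrib]
      refine Finset.sum_congr rfl fun a _ => ?_
      split_ifs
      · rfl
      · rfl
    · intro a
      funext b
      unfold push δ
      rw [Finset.sum_eq_single a]
      · by_cases h : f a = b
        · rw [if_pos h, Pi.single_eq_same, ← h, Pi.single_eq_same]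
        · rw [if_neg h, Pi.single_eq_of_ne (Ne.symm h)]
      · intro c _ hc
        rw [Pi.single_eq_of_ne hc, ite_self]
      · intro h
        exact absurd (Finset.mem_univ _) h

end Pool.Agent.Helper93.SK
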